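import Pool.Agent.Helper99.BK.Stmts

open NumberField

namespace Pool.Helper99.BK

theorem lf_surj (K : Type) [Field K] [NumberField K] (h3 : Module.finrank ℚ K = 3)
    (σ : Fin 3 → (K →+* ℂ)) (hσ : Function.Injective σ) : Function.Surjective σ := by
  classical
  have hc : Fintype.card (K →+* ℂ) = 3 := by rw [NumberField.Embeddings.card K ℂ, h3]
  exact ((Fintype.bijective_iff_injective_and_card σ).2 ⟨hσ, by rw [hc, Fintype.card_fin]⟩).2

theorem st_LF : ST_LF := by
  intro K _ _ h3 σ hσ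
  let F : Fin 3 → IntermediateField ℚ ℂ := fun i => (σ i).toRatAlgHom.fieldRange
  have hF : ∀ i, Module.finrank ℚ (F i) = 3 := by
    intro i
    rw [← h3]
    exact (LinearEquiv.finrank_eq
      (AlgEquiv.ofInjectiveField (σ i).toRatAlgHom).toLinearEquiv).symm
  have hfd : ∀ i, FiniteDimensional ℚ (F i) := fun i =>
    FiniteDimensional.of_finrank_pos (by rw [hF]; norm_num)
  have h01 : FiniteDimensional ℚ (F 0 ⊔ F 1 : IntermediateField ℚ ℂ) :=
    IntermediateField.finiteDimensional_sup _ _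
  have h012 : FiniteDimensional ℚ (F 0 ⊔ F 1 ⊔ F 2 : IntermediateField ℚ ℂ) :=
    IntermediateField.finiteDimensional_sup _ _
  have hmem : ∀ i x, σ i x ∈ (F 0 ⊔ F 1 ⊔ F 2 : IntermediateField ℚ ℂ) := by
    intro i x
    have hle : F i ≤ F 0 ⊔ F 1 ⊔ F 2 := by
      fin_cases i
      · exact le_sup_left.trans le_sup_left
      · exact le_sup_right.trans le_sup_left
      · exact le_sup_right
    exact hle ⟨x, rfl⟩
  refine ⟨F 0 ⊔ F 1 ⊔ F 2, h012, ?_, hmem, ?_⟩
  · refine (IntermediateField.finrank_sup_le _ _).trans ?_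
    have h1 : Module.finrank ℚ (F 0 ⊔ F 1 : IntermediateField ℚ ℂ) ≤ 9 := by
      refine (IntermediateField.finrank_sup_le _ _).trans ?_
      rw [hF, hF]
    rw [hF]
    omega
  · intro τ i
    let ρ : K →+* (F 0 ⊔ F 1 ⊔ F 2 : IntermediateField ℚ ℂ) :=
      (σ i).codRestrict (F 0 ⊔ F 1 ⊔ F 2 : IntermediateField ℚ ℂ) (hmem i)
    obtain ⟨j, hj⟩ := lf_surj K h3 σ hσ (τ.comp ρ)
    refine ⟨j, fun x hx => ?_⟩
    rw [hj]
    rfl

end Pool.Helper99.BK
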